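import Pool.Agent.Run7.h575.OH.A2

/-!
# From one-sided Hölder conditions at a non-meagre set of points to uniform conditions
-/

set_option autoImplicit false

open MeasureTheory Set Metric Filter Topology

namespace Run7.h575.OH

open Pool.Agent.Y485.HS

/-- one-sided Hölder condition at a point, of an exponent greater than `1 - 1 / n` -/
def OSAt {n : ℕ} (f : E n → E n) (v : E n) : Prop :=
  ∃ β : ℝ, β * n < 1 ∧ ∃ N : ℝ, ∀ᶠ w in 𝓝 v,
    -(N * dist w v ^ (2 - β)) ≤ inner ℝ (f w - f v) (w - v)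

/-- the exponents -/
noncomputable def be (n i : ℕ) : ℝ := (1 - 1 / ((i : ℝ) + 2)) / n

theorem be_pos {n : ℕ} (hn : 1 ≤ n) (i : ℕ) : 0 < be n i := by
  have hn0 : (0 : ℝ) < n := by exact_mod_cast hn
  have h : 1 / ((i : ℝ) + 2) < 1 := by
    rw [div_lt_one (by positivity)]
    have : (0 : ℝ) ≤ i := Nat.cast_nonneg i
    linarith
  exact div_pos (by linarith) hn0

theorem be_lt {n : ℕ} (hn : 1 ≤ n) (i : ℕ) : be n i * n < 1 := by
  have hn0 : (0 : ℝ) < n := by exact_mod_cast hn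
  unfold be
  rw [div_mul_cancel₀ _ hn0.ne']
  have : 0 < 1 / ((i : ℝ) + 2) := by positivity
  linarith

theorem exists_be {n : ℕ} (hn : 1 ≤ n) {β : ℝ} (hβ : β * n < 1) : ∃ i : ℕ, β ≤ be n i := by
  have hn0 : (0 : ℝ) < n := by exact_mod_cast hn
  obtain ⟨i, hi⟩ := exists_nat_one_div_lt (show 0 < 1 - β * n by linarith)
  refine ⟨i, ?_⟩
  unfold be
  rw [le_div_iff₀ hn0]
  have h1 : 1 / ((i : ℝ) + 2) ≤ 1 / ((i : ℝ) + 1) := by
    apply one_div_le_one_div_of_le (by positivity)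
    linarith
  linarith

/-- the constants at the scale `(1 / 2) ^ j` -/
noncomputable def lseq (n : ℕ) (k : ℕ × ℕ) (j : ℕ) : ℝ := k.1 * ((2 : ℝ) ^ be n k.2) ^ j

theorem lseq_nonneg (n : ℕ) (k : ℕ × ℕ) (j : ℕ) : 0 ≤ lseq n k j := by
  unfold lseq
  positivity

theorem tendsto_lseq {n : ℕ} (hn : 1 ≤ n) (k : ℕ × ℕ) :
    Tendsto (fun j : ℕ => ((1 : ℝ) / 2) ^ j * (1 + lseq n k j) ^ n) atTop (𝓝 0) := by
  have hb := be_pos hn k.2
  have hb1 := be_lt hn k.2
  set x : ℝ := (2 : ℝ) ^ be n k.2 with hx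
  have hx1 : 1 ≤ x := Real.one_le_rpow (by norm_num) hb.le
  have hx0 : 0 < x := by linarith
  have hxn : x ^ n < 2 := by
    have h1 : x ^ n = (2 : ℝ) ^ (be n k.2 * n) := by
      rw [hx, Real.rpow_mul (by norm_num), Real.rpow_natCast]
    rw [h1]
    calc (2 : ℝ) ^ (be n k.2 * n) < (2 : ℝ) ^ (1 : ℝ) :=
          Real.rpow_lt_rpow_of_exponent_lt (by norm_num) hb1
      _ = 2 := by simp
  have hq0 : 0 ≤ 1 / 2 * x ^ n := by positivity
  have hq1 : 1 / 2 * x ^ n < 1 := by linarith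
  have h1 := (tendsto_pow_atTop_nhds_zero_of_lt_one hq0 hq1).const_mul ((1 + (k.1 : ℝ)) ^ n)
  rw [mul_zero] at h1
  refine squeeze_zero (fun j => ?_) (fun j => ?_) h1
  · have := lseq_nonneg n k j
    positivity
  · have hxj : 1 ≤ x ^ j := one_le_pow₀ hx1
    have h2 : 1 + lseq n k j ≤ (1 + k.1) * x ^ j := by
      unfold lseq
      have : (0 : ℝ) ≤ k.1 := Nat.cast_nonneg _
      nlinarith
    have h3 := lseq_nonneg n k j
    calc ((1 : ℝ) / 2) ^ j * (1 + lseq n k j) ^ n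
        ≤ ((1 : ℝ) / 2) ^ j * ((1 + k.1) * x ^ j) ^ n := by gcongr
      _ = (1 + k.1) ^ n * (1 / 2 * x ^ n) ^ j := by
          rw [mul_pow, mul_pow, ← pow_mul, ← pow_mul, mul_comm n j]
          ring

theorem rpow_scale (β : ℝ) (j : ℕ) : (((1 : ℝ) / 2) ^ j) ^ (-β) = ((2 : ℝ) ^ β) ^ j := by
  have h1 : ((1 : ℝ) / 2) ^ j = (2 : ℝ) ^ (-(j : ℝ)) := by
    rw [Real.rpow_neg (by norm_num), Real.rpow_natCast, one_div, inv_pow]
  rw [h1, ← Real.rpow_mul (by norm_num), ← Real.rpow_natCast ((2 : ℝ) ^ β) j,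
    ← Real.rpow_mul (by norm_num)]
  congr 1
  ring

/-- a uniform one-sided condition on an open set -/
theorem uniform {n : ℕ} (hn : 1 ≤ n) {T : Set (E n)} (hT : IsOpen T) {f : E n → E n}
    (hf : ContinuousOn f T) (h : ¬ IsMeagre {v | v ∈ T ∧ OSAt f v}) :
    ∃ (k : ℕ × ℕ) (B : Set (E n)), IsOpen B ∧ B.Nonempty ∧ B ⊆ T ∧
      ∀ j : ℕ, OS B (((1 : ℝ) / 2) ^ j) (lseq n k j) f := by
  set Z : ℕ × ℕ → Set (E n) := fun k => {v | v ∈ T ∧ ∀ w ∈ T, dist w v < 1 / ((k.1 : ℝ) + 1) →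
    -((k.1 : ℝ) * dist w v ^ (2 - be n k.2)) ≤ inner ℝ (f w - f v) (w - v)} with hZ
  have hcov : {v | v ∈ T ∧ OSAt f v} ⊆ ⋃ k, Z k := by
    rintro v ⟨hvT, β, hβ, N, hN⟩
    obtain ⟨i, hi⟩ := exists_be hn hβ
    obtain ⟨δ, hδ, hball⟩ := Metric.eventually_nhds_iff.1 hN
    obtain ⟨m1, hm1⟩ := exists_nat_one_div_lt hδ
    obtain ⟨m2, hm2⟩ := exists_nat_ge |N|
    refine mem_iUnion.2 ⟨(max m1 m2, i), hvT, fun w _ hwv => ?_⟩
    have hm1' : ((m1 : ℕ) : ℝ) ≤ ((max m1 m2 : ℕ) : ℝ) := by exact_mod_cast le_max_left _ _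
    have hm2' : ((m2 : ℕ) : ℝ) ≤ ((max m1 m2 : ℕ) : ℝ) := by exact_mod_cast le_max_right _ _
    have hM0 : (0 : ℝ) ≤ ((max m1 m2 : ℕ) : ℝ) := Nat.cast_nonneg _
    change dist w v < 1 / (((max m1 m2 : ℕ) : ℝ) + 1) at hwv
    show -(((max m1 m2 : ℕ) : ℝ) * dist w v ^ (2 - be n i)) ≤ _
    have e1 : dist w v < δ := by
      refine hwv.trans_le (le_trans ?_ hm1.le)
      exact one_div_le_one_div_of_le (by positivity) (by linarith)
    have e2 : dist w v ≤ 1 := by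
      refine hwv.le.trans ?_
      rw [div_le_one (by positivity)]
      linarith
    have e3 := hball e1
    rcases (dist_nonneg (x := w) (y := v)).eq_or_lt with h0 | h0
    · have e4 : w = v := dist_eq_zero.1 h0.symm
      rw [e4]
      simp only [sub_self, inner_zero_left, dist_self]
      have : 0 ≤ ((max m1 m2 : ℕ) : ℝ) * (0 : ℝ) ^ (2 - be n i) :=
        mul_nonneg hM0 (Real.rpow_nonneg le_rfl _)
      linarith
    · have e4 : dist w v ^ (2 - β) ≤ dist w v ^ (2 - be n i) :=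
        Real.rpow_le_rpow_of_exponent_ge h0 e2 (by linarith)
      have e5 : N * dist w v ^ (2 - β) ≤ ((max m1 m2 : ℕ) : ℝ) * dist w v ^ (2 - be n i) := by
        have g1 : 0 ≤ dist w v ^ (2 - β) := Real.rpow_nonneg dist_nonneg _
        calc N * dist w v ^ (2 - β) ≤ |N| * dist w v ^ (2 - β) :=
              mul_le_mul_of_nonneg_right (le_abs_self N) g1
          _ ≤ ((max m1 m2 : ℕ) : ℝ) * dist w v ^ (2 - be n i) := by
              refine mul_le_mul (by linarith) e4 g1 hM0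
      linarith
  obtain ⟨k, hk⟩ : ∃ k, ¬ IsMeagre (Z k) := by
    by_contra hcon
    push Not at hcon
    exact h ((isMeagre_iUnion hcon).mono hcov)
  have hk2 : (interior (closure (Z k))).Nonempty := by
    by_contra hcon
    rw [not_nonempty_iff_eq_empty] at hcon
    exact hk (IsNowhereDense.isMeagre hcon)
  have hrel : ∀ v ∈ T, v ∈ closure (Z k) → v ∈ Z k := by
    intro v hvT hv
    refine ⟨hvT, fun w hw hwv => ?_⟩
    by_contra hcon
    push Not at hcon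
    have hfv : ContinuousAt f v := hf.continuousAt (hT.mem_nhds hvT)
    have c0 : ContinuousAt (fun z : E n => dist w z) v := continuousAt_const.dist continuousAt_id
    have c1 : ContinuousAt (fun z : E n => (inner ℝ (f w - f z) (w - z) : ℝ)) v :=
      (continuousAt_const.sub hfv).inner (continuousAt_const.sub continuousAt_id)
    by_cases h0 : dist w v = 0
    · have e4 : w = v := dist_eq_zero.1 h0
      rw [e4] at hcon
      simp only [sub_self, inner_zero_left, dist_self] at hcon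
      have : 0 ≤ ((k.1 : ℕ) : ℝ) * (0 : ℝ) ^ (2 - be n k.2) :=
        mul_nonneg (Nat.cast_nonneg _) (Real.rpow_nonneg le_rfl _)
      linarith
    · have c2 : ContinuousAt (fun z : E n => -((k.1 : ℝ) * dist w z ^ (2 - be n k.2))) v :=
        (continuousAt_const.mul (c0.rpow_const (Or.inl h0))).neg
      have hev : ∀ᶠ z in 𝓝 v, (inner ℝ (f w - f z) (w - z) : ℝ) <
          -((k.1 : ℝ) * dist w z ^ (2 - be n k.2)) := c1.eventually_lt c2 hcon
      have hev2 : ∀ᶠ z in 𝓝 v, dist w z < 1 / ((k.1 : ℝ) + 1) := c0.eventually_lt_const hwv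
      obtain ⟨z, ⟨hz1, hz2⟩, hz3⟩ := mem_closure_iff_nhds.1 hv _ (hev.and hev2)
      exact absurd (hz3.2 w hw hz2) (not_le.2 hz1)
  obtain ⟨u, hu⟩ := hk2
  obtain ⟨v0, hv0, hv0Z⟩ := mem_closure_iff.1 (interior_subset hu) _ isOpen_interior hu
  have hpos : (0 : ℝ) < 1 / (2 * ((k.1 : ℝ) + 1)) := by positivity
  refine ⟨k, interior (closure (Z k)) ∩ T ∩ ball v0 (1 / (2 * ((k.1 : ℝ) + 1))),
    (isOpen_interior.inter hT).inter isOpen_ball, ⟨v0, ⟨hv0, hv0Z.1⟩, mem_ball_self hpos⟩,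
    fun v hv => hv.1.2, ?_⟩
  rintro j v ⟨⟨hv1, hv2⟩, hv3⟩ w ⟨⟨hw1, hw2⟩, hw3⟩ hvw
  have hwZ := hrel w hw2 (interior_subset hw1)
  have hr0 : (0 : ℝ) < (1 / 2) ^ j := by positivity
  have hd0 : 0 < dist v w := hr0.trans_le hvw
  have hd : dist v w < 1 / ((k.1 : ℝ) + 1) := by
    have e1 := dist_triangle_right v w v0
    rw [mem_ball] at hv3 hw3
    have e2 : 1 / (2 * ((k.1 : ℝ) + 1)) + 1 / (2 * ((k.1 : ℝ) + 1)) = 1 / ((k.1 : ℝ) + 1) := by
      field_simp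
      norm_num
    linarith
  have h1 := hwZ.2 v hv2 hd
  refine le_trans ?_ h1
  rw [neg_le_neg_iff]
  have h2 : dist v w ^ (2 - be n k.2) = dist v w ^ 2 * dist v w ^ (-be n k.2) := by
    rw [sub_eq_add_neg, Real.rpow_add hd0, Real.rpow_two]
  have h3 : dist v w ^ (-be n k.2) ≤ ((2 : ℝ) ^ be n k.2) ^ j := by
    rw [← rpow_scale]
    exact Real.rpow_le_rpow_of_nonpos hr0 hvw (by have := be_pos hn k.2; linarith)
  have hk0 : (0 : ℝ) ≤ k.1 := Nat.cast_nonneg _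
  calc (k.1 : ℝ) * dist v w ^ (2 - be n k.2)
      = k.1 * dist v w ^ (-be n k.2) * dist v w ^ 2 := by rw [h2]; ring
    _ ≤ k.1 * ((2 : ℝ) ^ be n k.2) ^ j * dist v w ^ 2 := by gcongr
    _ = lseq n k j * dist v w ^ 2 := rfl

end Run7.h575.OH
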