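import Pool.Agent.Y485.HS.Stm

/-!
# One-sided conditions at a sequence of scales: almost every fibre is totally disconnected

The structure of the proofs of `net'`, `slice_null` and `ae_fibre` follows the starting file
`Pool/Agent/R775/HS/Ener.lean`.
-/

set_option autoImplicit false

open MeasureTheory Set Metric Filter Topology
open scoped ENNReal NNReal

namespace Run7.h575.OH

open Pool.Agent.Y485.HS

/-- one-sided Lipschitz condition with the constant `l` for the pairs at distance at least `r` -/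
def OS {n : ℕ} (Q : Set (E n)) (r l : ℝ) (f : E n → E n) : Prop :=
  ∀ v ∈ Q, ∀ w ∈ Q, r ≤ dist v w → -(l * dist v w ^ 2) ≤ inner ℝ (f v - f w) (v - w)

theorem os_mono {n : ℕ} {Q Q' : Set (E n)} {r l l' : ℝ} {f : E n → E n} (hQ : Q ⊆ Q')
    (hl : l' ≤ l) (h : OS Q' r l' f) : OS Q r l f := by
  intro v hv w hw hvw
  have h1 := h v (hQ hv) w (hQ hw) hvw
  have h2 : l' * dist v w ^ 2 ≤ l * dist v w ^ 2 := mul_le_mul_of_nonneg_right hl (sq_nonneg _)
  linarith

/-- averages satisfy the same condition -/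
theorem os_avg {n : ℕ} {Q : Set (E n)} {r l : ℝ} {Ω : Type} [TopologicalSpace Ω]
    [CompactSpace Ω] [MeasurableSpace Ω] [BorelSpace Ω] (μ : Measure Ω) [IsProbabilityMeasure μ]
    (S : Ω → E n → E n) (hS : ∀ u ∈ Q, Continuous (fun ω => S ω u))
    (hE : ∀ ω, OS Q r l (S ω)) : OS Q r l (fun u => ∫ ω, S ω u ∂μ) := by
  intro v hv w hw hvw
  have hci : ∀ f : Ω → ℝ, Continuous f → Integrable f μ := fun f hf =>
    hf.integrable_of_hasCompactSupport (HasCompactSupport.of_compactSpace _)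
  have hcE : ∀ f : Ω → E n, Continuous f → Integrable f μ := fun f hf =>
    hf.integrable_of_hasCompactSupport (HasCompactSupport.of_compactSpace _)
  have h1 : inner ℝ ((∫ ω, S ω v ∂μ) - ∫ ω, S ω w ∂μ) (v - w) =
      ∫ ω, inner ℝ (S ω v - S ω w) (v - w) ∂μ := by
    have h2 := integral_inner (𝕜 := ℝ) (f := fun ω => S ω v - S ω w)
      (hcE _ ((hS v hv).sub (hS w hw))) (v - w)
    rw [← integral_sub (hcE _ (hS v hv)) (hcE _ (hS w hw)), real_inner_comm, ← h2]
    refine integral_congr_ae (Eventually.of_forall fun ω => ?_)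
    exact real_inner_comm _ _
  show -(l * dist v w ^ 2) ≤ inner ℝ ((∫ ω, S ω v ∂μ) - ∫ ω, S ω w ∂μ) (v - w)
  rw [h1]
  calc -(l * dist v w ^ 2) = ∫ _ω : Ω, -(l * dist v w ^ 2) ∂μ := by simp
    _ ≤ _ := by
        refine integral_mono (integrable_const _) (hci _ ?_) (fun ω => hE ω v hv w hw hvw)
        exact ((hS v hv).sub (hS w hw)).inner continuous_const

/-- a maximal separated subset of a compact set -/
theorem net {n : ℕ} {Q : Set (E n)} (hc : IsCompact Q) {r : ℝ} (hr : 0 < r) :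
    ∃ A : Finset (E n), (∀ a ∈ A, a ∈ Q) ∧ (∀ a ∈ A, ∀ b ∈ A, a ≠ b → r ≤ dist a b) ∧
    ∀ x ∈ Q, ∃ a ∈ A, dist x a ≤ r := by
  classical
  obtain ⟨t, hts, htf, htc⟩ := hc.finite_cover_balls (half_pos hr)
  set P : Finset (E n) → Prop := fun A => (∀ a ∈ A, a ∈ Q) ∧
    (∀ a ∈ A, ∀ b ∈ A, a ≠ b → r ≤ dist a b) with hP
  have hcard : ∀ A, P A → A.card ≤ htf.toFinset.card := by
    intro A hA
    have h1 : ∀ a ∈ A, ∃ c ∈ t, dist a c < r / 2 := by
      intro a ha
      have h2 := htc (hA.1 a ha)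
      simpa only [mem_iUnion, mem_ball, exists_prop] using h2
    choose! c hc1 hc2 using h1
    refine Finset.card_le_card_of_injOn c (fun a ha => htf.mem_toFinset.2 (hc1 a ha)) ?_
    intro a ha b hb hab
    by_contra hne
    have h3 := hA.2 a ha b hb hne
    have h4 := hc2 a ha
    have h5 := hc2 b hb
    have hab' : c a = c b := hab
    rw [← hab'] at h5
    have h6 := dist_triangle_right a b (c a)
    linarith
  set S : Set ℕ := {k | ∃ A, P A ∧ A.card = k} with hS
  have hne : S.Nonempty := ⟨0, ∅, ⟨by simp, by simp⟩, by simp⟩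
  have hbd : BddAbove S := ⟨htf.toFinset.card, by
    rintro k ⟨A, hA, rfl⟩
    exact hcard A hA⟩
  obtain ⟨A, hA, hAc⟩ := Nat.sSup_mem hne hbd
  refine ⟨A, hA.1, hA.2, fun x hx => ?_⟩
  by_contra hno
  push Not at hno
  have hxA : x ∉ A := by
    intro h
    have := hno x h
    rw [dist_self] at this
    linarith
  have hins : P (insert x A) := by
    refine ⟨fun a ha => ?_, fun a ha b hb hab => ?_⟩
    · rcases Finset.mem_insert.1 ha with rfl | ha
      · exact hx
      · exact hA.1 a ha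
    · rcases Finset.mem_insert.1 ha with h8 | h8 <;> rcases Finset.mem_insert.1 hb with h9 | h9
      · exact absurd (h8.trans h9.symm) hab
      · rw [h8]; exact (hno b h9).le
      · rw [h9, dist_comm]; exact (hno a h8).le
      · exact hA.2 a h8 b h9 hab
  have h7 : (insert x A).card ≤ sSup S := le_csSup hbd ⟨_, hins, rfl⟩
  rw [Finset.card_insert_of_notMem hxA, hAc] at h7
  omega

/-- the number of separated points in a ball -/
theorem pack {n : ℕ} {R ρ : ℝ} (hρ : 0 < ρ) (hR : 0 ≤ R) (A : Finset (E n))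
    (h1 : ∀ a ∈ A, ‖a‖ ≤ R) (h2 : ∀ a ∈ A, ∀ b ∈ A, a ≠ b → ρ ≤ dist a b) :
    (A.card : ℝ) * ρ ^ n ≤ (2 * R + ρ) ^ n := by
  have hdisj : Set.PairwiseDisjoint (A : Set (E n)) (fun a => ball a (ρ / 2)) := by
    intro a ha b hb hab
    refine ball_disjoint_ball ?_
    have := h2 a ha b hb hab
    linarith
  have hsub : (⋃ a ∈ A, ball a (ρ / 2)) ⊆ ball (0 : E n) (R + ρ / 2) := by
    intro x hx
    rw [mem_iUnion₂] at hx
    obtain ⟨a, ha, hxa⟩ := hx
    have e1 := h1 a ha
    rw [mem_ball] at hxa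
    rw [mem_ball, dist_zero_right]
    have e2 : ‖x‖ ≤ ‖x - a‖ + ‖a‖ := by
      have := norm_add_le (x - a) a
      simpa using this
    rw [dist_eq_norm] at hxa
    linarith
  have hvol : ∑ a ∈ A, volume (ball a (ρ / 2)) ≤ volume (ball (0 : E n) (R + ρ / 2)) := by
    rw [← measure_biUnion_finset hdisj (fun a _ => measurableSet_ball)]
    exact measure_mono hsub
  have hb : ∀ (a : E n) (s : ℝ), 0 < s →
      volume (ball a s) = ENNReal.ofReal (s ^ n) * volume (ball (0 : E n) 1) := by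
    intro a s hs
    have := Measure.addHaar_ball_of_pos (volume : Measure (E n)) a hs
    simpa using this
  set κ : ℝ≥0∞ := volume (ball (0 : E n) 1) with hκ
  have hκt : κ ≠ ∞ := measure_ball_lt_top.ne
  have hκ0 : κ ≠ 0 := (measure_ball_pos _ _ one_pos).ne'
  have h3 : ∑ a ∈ A, volume (ball a (ρ / 2)) = ENNReal.ofReal (A.card * (ρ / 2) ^ n) * κ := by
    rw [Finset.sum_congr rfl fun a _ => hb a (ρ / 2) (by positivity), Finset.sum_const,
      nsmul_eq_mul, ENNReal.ofReal_mul (by positivity), ENNReal.ofReal_natCast]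
    ring
  rw [h3, hb 0 _ (by positivity), ENNReal.mul_le_mul_iff_left hκ0 hκt,
    ENNReal.ofReal_le_ofReal_iff (by positivity)] at hvol
  have h4 : (A.card : ℝ) * ρ ^ n = 2 ^ n * (A.card * (ρ / 2) ^ n) := by
    rw [div_pow]
    field_simp
  have h5 : (2 * R + ρ) ^ n = 2 ^ n * (R + ρ / 2) ^ n := by
    rw [← mul_pow]
    congr 1
    ring
  rw [h4, h5]
  exact mul_le_mul_of_nonneg_left hvol (by positivity)

theorem coord {n : ℕ} (x a : E n) (i : Fin n) : |x i - a i| ≤ dist x a := by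
  rw [dist_eq_norm]
  have := PiLp.norm_apply_le (x - a) i
  rwa [PiLp.sub_apply, Real.norm_eq_abs] at this

end Run7.h575.OH
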