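import Pool.Agent.Run7.h575.OH.A1

/-!
# Almost every fibre of a one-sided map is totally disconnected
-/

set_option autoImplicit false

open MeasureTheory Set Metric Filter Topology
open scoped ENNReal NNReal

namespace Run7.h575.OH

open Pool.Agent.Y485.HS

/-- the net for one scale -/
theorem scale {n : ℕ} {Q : Set (E n)} (hQ : IsCompact Q) {f : E n → E n}
    (hf : ContinuousOn f Q) {R : ℝ} (hR0 : 0 ≤ R) (hR : ∀ x ∈ Q, ‖x‖ ≤ R ∧ ‖f x‖ ≤ R) {r l : ℝ}
    (hr : 0 < r) (hr1 : r ≤ 1) (hl : 0 ≤ l) (hE : OS Q r l f) :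
    ∃ (A : Finset (E n)) (x : E n → E n), (∀ a ∈ A, x a ∈ Q) ∧
      (A.card : ℝ) * r ^ n ≤ (4 * R + 1) ^ n ∧
      ∀ y ∈ Q, ∃ a ∈ A, dist y (x a) ≤ r ∧ dist (f y) (f (x a)) ≤ 3 * (1 + l) * r := by
  set M : E n → E n := fun x => f x + (2 * l + 1) • x with hM
  have hMc : ContinuousOn M Q := hf.add (by fun_prop)
  have hexp : ∀ v ∈ Q, ∀ w ∈ Q, r ≤ dist v w → (l + 1) * dist v w ≤ dist (M v) (M w) := by
    intro v hv w hw hvw
    have hpos : 0 < dist v w := hr.trans_le hvw
    have h1 := hE v hv w hw hvw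
    have h2 : M v - M w = (f v - f w) + (2 * l + 1) • (v - w) := by
      simp only [hM, smul_sub]
      abel
    have h3 : inner ℝ (M v - M w) (v - w) =
        inner ℝ (f v - f w) (v - w) + (2 * l + 1) * dist v w ^ 2 := by
      rw [h2, inner_add_left, inner_smul_left, real_inner_self_eq_norm_sq, ← dist_eq_norm]
      simp
    have h4 : inner ℝ (M v - M w) (v - w) ≤ dist (M v) (M w) * dist v w := by
      rw [dist_eq_norm, dist_eq_norm]
      exact real_inner_le_norm _ _
    have h5 : (l + 1) * dist v w * dist v w ≤ dist (M v) (M w) * dist v w := by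
      nlinarith
    exact le_of_mul_le_mul_right h5 hpos
  have hK : IsCompact (M '' Q) := hQ.image_of_continuousOn hMc
  have hρ : 0 < (l + 1) * r := by positivity
  obtain ⟨A, hA1, hA2, hA3⟩ := net hK hρ
  have hch : ∀ a, ∃ x, a ∈ A → x ∈ Q ∧ M x = a := by
    intro a
    by_cases ha : a ∈ A
    · obtain ⟨x, hx, hxa⟩ := hA1 a ha
      exact ⟨x, fun _ => ⟨hx, hxa⟩⟩
    · exact ⟨0, fun h => (ha h).elim⟩
  choose x hx using hch
  refine ⟨A, x, fun a ha => (hx a ha).1, ?_, ?_⟩
  · have h1 := pack hρ (R := 2 * R * (1 + l)) (by positivity) A (fun a ha => by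
      obtain ⟨z, hz, rfl⟩ := hA1 a ha
      obtain ⟨g1, g2⟩ := hR z hz
      have g3 : ‖M z‖ ≤ ‖f z‖ + ‖(2 * l + 1) • z‖ := norm_add_le _ _
      rw [norm_smul, Real.norm_of_nonneg (by positivity)] at g3
      nlinarith) hA2
    have h2 : (2 * (2 * R * (1 + l)) + (l + 1) * r) ^ n ≤ ((l + 1) * (4 * R + 1)) ^ n := by
      refine pow_le_pow_left₀ (by positivity) ?_ n
      nlinarith
    rw [mul_pow] at h2
    rw [mul_pow] at h1
    have h3 : (l + 1) ^ n * ((A.card : ℝ) * r ^ n) ≤ (l + 1) ^ n * (4 * R + 1) ^ n := by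
      calc (l + 1) ^ n * ((A.card : ℝ) * r ^ n) = (A.card : ℝ) * ((l + 1) ^ n * r ^ n) := by ring
        _ ≤ _ := h1.trans h2
    exact le_of_mul_le_mul_left h3 (by positivity)
  · intro y hy
    obtain ⟨a, ha, hya⟩ := hA3 (M y) (mem_image_of_mem _ hy)
    obtain ⟨h1, h2⟩ := hx a ha
    have h3 : dist y (x a) ≤ r := by
      by_contra hc
      push Not at hc
      have h4 := hexp y hy (x a) h1 hc.le
      rw [h2] at h4
      have h5 : (l + 1) * r < (l + 1) * dist y (x a) := mul_lt_mul_of_pos_left hc (by positivity)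
      linarith
    refine ⟨a, ha, h3, ?_⟩
    have h6 : f y - f (x a) = (M y - M (x a)) - (2 * l + 1) • (y - x a) := by
      simp only [hM, smul_sub]
      abel
    rw [dist_eq_norm, h6]
    refine (norm_sub_le _ _).trans ?_
    rw [norm_smul, Real.norm_of_nonneg (by positivity), ← dist_eq_norm, ← dist_eq_norm, h2]
    nlinarith

theorem slice_null {n : ℕ} {Q : Set (E n)} (hQ : IsCompact Q) {f : E n → E n}
    (hf : ContinuousOn f Q) {r l : ℕ → ℝ} (hr : ∀ j, 0 < r j) (hr1 : ∀ j, r j ≤ 1)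
    (hl : ∀ j, 0 ≤ l j) (hrl : Tendsto (fun j => r j * (1 + l j) ^ n) atTop (𝓝 0))
    (hE : ∀ j, OS Q (r j) (l j) f)
    (i : Fin n) : ∀ᵐ t : ℝ, volume (f '' {x | x ∈ Q ∧ x i = t}) = 0 := by
  classical
  obtain ⟨R, hR0, hR⟩ : ∃ R : ℝ, 0 ≤ R ∧ ∀ x ∈ Q, ‖x‖ ≤ R ∧ ‖f x‖ ≤ R := by
    obtain ⟨R1, h1⟩ := hQ.exists_bound_of_continuousOn continuousOn_id
    obtain ⟨R2, h2⟩ := hQ.exists_bound_of_continuousOn hf
    refine ⟨max 0 (max R1 R2), le_max_left _ _, fun x hx => ⟨?_, ?_⟩⟩
    · exact (h1 x hx).trans ((le_max_left _ _).trans (le_max_right _ _))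
    · exact (h2 x hx).trans ((le_max_right _ _).trans (le_max_right _ _))
  choose A x hx hcard hnet using fun j => scale hQ hf hR0 hR (hr j) (hr1 j) (hl j) (hE j)
  set κ : ℝ≥0∞ := volume (ball (0 : E n) 1) with hκ
  have hκt : κ ≠ ∞ := measure_ball_lt_top.ne
  set D : ℕ → ℝ := fun j => (3 * (1 + l j) * r j) ^ n with hD
  have hD0 : ∀ j, 0 ≤ D j := fun j => by
    have := hr j
    have := hl j
    positivity
  set g : ℕ → ℝ → ℝ≥0∞ := fun j t => ∑ a ∈ A j,
    (Icc (x j a i - r j) (x j a i + r j)).indicator (fun _ => ENNReal.ofReal (D j) * κ) t with hg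
  have hgm : ∀ j, Measurable (g j) := by
    intro j
    refine Finset.measurable_fun_sum _ fun a _ => ?_
    exact measurable_const.indicator measurableSet_Icc
  have hint : ∀ j, ∫⁻ t, g j t ≤
      ENNReal.ofReal (2 * 3 ^ n * (4 * R + 1) ^ n * (r j * (1 + l j) ^ n)) * κ := by
    intro j
    have hrj := hr j
    have hlj := hl j
    have h1 : ∫⁻ t, g j t = ∑ a ∈ A j,
        ENNReal.ofReal (D j) * κ * ENNReal.ofReal (2 * r j) := by
      simp only [hg]
      rw [lintegral_finsetSum _ fun a _ => measurable_const.indicator measurableSet_Icc]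
      refine Finset.sum_congr rfl fun a _ => ?_
      rw [lintegral_indicator measurableSet_Icc, lintegral_const,
        Measure.restrict_apply MeasurableSet.univ, univ_inter, Real.volume_Icc]
      congr 2
      ring
    have h2 : ∑ a ∈ A j, ENNReal.ofReal (D j) * κ * ENNReal.ofReal (2 * r j)
        = ENNReal.ofReal ((A j).card * (D j * (2 * r j))) * κ := by
      have e1 : ENNReal.ofReal ((A j).card * (D j * (2 * r j))) =
          (A j).card * (ENNReal.ofReal (D j) * ENNReal.ofReal (2 * r j)) := by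
        rw [ENNReal.ofReal_mul (Nat.cast_nonneg _), ENNReal.ofReal_mul (hD0 j),
          ENNReal.ofReal_natCast]
      rw [Finset.sum_const, nsmul_eq_mul, e1]
      ring
    rw [h1, h2]
    refine mul_le_mul' (ENNReal.ofReal_le_ofReal ?_) le_rfl
    have h3 := hcard j
    calc ((A j).card : ℝ) * (D j * (2 * r j))
        = 2 * 3 ^ n * (((A j).card : ℝ) * r j ^ n) * (r j * (1 + l j) ^ n) := by
          simp only [hD, mul_pow]
          ring
      _ ≤ 2 * 3 ^ n * (4 * R + 1) ^ n * (r j * (1 + l j) ^ n) := by gcongr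
  have hlim : ∫⁻ t, liminf (fun j => g j t) atTop = 0 := by
    refine le_antisymm ?_ bot_le
    refine (lintegral_liminf_le hgm).trans ?_
    have hz : Tendsto (fun j => ENNReal.ofReal (2 * 3 ^ n * (4 * R + 1) ^ n *
        (r j * (1 + l j) ^ n)) * κ) atTop (𝓝 0) := by
      have h1 : Tendsto (fun j => 2 * 3 ^ n * (4 * R + 1) ^ n * (r j * (1 + l j) ^ n)) atTop
          (𝓝 0) := by
        simpa using hrl.const_mul (2 * 3 ^ n * (4 * R + 1) ^ n)
      have h2 := ENNReal.tendsto_ofReal h1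
      have h3 := ENNReal.Tendsto.mul_const h2 (b := κ) (Or.inr hκt)
      simpa using h3
    calc liminf (fun j => ∫⁻ t, g j t) atTop
        ≤ liminf (fun j => ENNReal.ofReal (2 * 3 ^ n * (4 * R + 1) ^ n *
            (r j * (1 + l j) ^ n)) * κ) atTop :=
          liminf_le_liminf (Eventually.of_forall hint)
      _ = 0 := hz.liminf_eq
  have hae := (lintegral_eq_zero_iff (Measurable.liminf hgm)).1 hlim
  filter_upwards [hae] with t ht
  have key : ∀ j, volume (f '' {x | x ∈ Q ∧ x i = t}) ≤ g j t := by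
    intro j
    have hrj := hr j
    have hlj := hl j
    have hsub : f '' {x | x ∈ Q ∧ x i = t} ⊆
        ⋃ a ∈ (A j).filter (fun a => t ∈ Icc (x j a i - r j) (x j a i + r j)),
          closedBall (f (x j a)) (3 * (1 + l j) * r j) := by
      rintro y ⟨z, ⟨hz, hzt⟩, rfl⟩
      obtain ⟨a, haA, hxa, hfa⟩ := hnet j z hz
      have h1 := coord z (x j a) i
      rw [hzt, abs_le] at h1
      refine mem_biUnion (x := a) ?_ (mem_closedBall.2 hfa)
      rw [Finset.mem_coe, Finset.mem_filter]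
      exact ⟨haA, by linarith [h1.1], by linarith [h1.2]⟩
    refine (measure_mono hsub).trans ((measure_biUnion_finset_le _ _).trans ?_)
    have hb : ∀ a : E n, volume (closedBall a (3 * (1 + l j) * r j)) ≤
        ENNReal.ofReal (D j) * κ := by
      intro a
      have h1 := Measure.addHaar_closedBall (volume : Measure (E n)) a
        (r := 3 * (1 + l j) * r j) (by positivity)
      rw [h1]
      simp [hD, hκ]
    calc ∑ a ∈ (A j).filter (fun a => t ∈ Icc (x j a i - r j) (x j a i + r j)),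
          volume (closedBall (f (x j a)) (3 * (1 + l j) * r j))
        ≤ ∑ a ∈ (A j).filter (fun a => t ∈ Icc (x j a i - r j) (x j a i + r j)),
          ENNReal.ofReal (D j) * κ :=
          Finset.sum_le_sum fun a _ => hb _
      _ = g j t := by
          rw [Finset.sum_filter]
          simp only [hg, Set.indicator_apply]
  refine le_antisymm ?_ bot_le
  calc volume (f '' {x | x ∈ Q ∧ x i = t}) ≤ liminf (fun j => g j t) atTop :=
        le_liminf_of_le (by isBoundedDefault) (Eventually.of_forall key)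
    _ = 0 := ht

/-- almost every fibre is totally disconnected -/
theorem ae_fibre {n : ℕ} {Q : Set (E n)} (hQ : IsCompact Q) {f : E n → E n}
    (hf : ContinuousOn f Q) {r l : ℕ → ℝ} (hr : ∀ j, 0 < r j) (hr1 : ∀ j, r j ≤ 1)
    (hl : ∀ j, 0 ≤ l j) (hrl : Tendsto (fun j => r j * (1 + l j) ^ n) atTop (𝓝 0))
    (hE : ∀ j, OS Q (r j) (l j) f) :
    ∀ᵐ y : E n, ∀ C ⊆ Q, IsPreconnected C → (∀ x ∈ C, f x = y) → C.Subsingleton := by
  have h1 : ∀ i : Fin n, ∃ T : Set ℝ, T.Countable ∧ Dense T ∧ ∀ t ∈ T,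
      volume (f '' {x | x ∈ Q ∧ x i = t}) = 0 := by
    intro i
    have hd := Measure.dense_of_ae (slice_null hQ hf hr hr1 hl hrl hE i)
    obtain ⟨T, hT1, hT2, hT3⟩ := hd.exists_countable_dense_subset
    exact ⟨T, hT2, hT3, fun t ht => hT1 ht⟩
  choose T hT1 hT2 hT3 using h1
  have h2 : ∀ᵐ y : E n, ∀ i : Fin n, ∀ t ∈ T i, y ∉ f '' {x | x ∈ Q ∧ x i = t} := by
    rw [ae_all_iff]
    intro i
    rw [ae_ball_iff (hT1 i)]
    intro t ht
    exact measure_eq_zero_iff_ae_notMem.1 (hT3 i t ht)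
  filter_upwards [h2] with y hy C hCQ hC hCy x hx x' hx'
  refine PiLp.ext fun i => ?_
  by_contra hne
  have hIm : IsPreconnected ((fun z : E n => z i) '' C) :=
    hC.image _ (by fun_prop : Continuous (fun z : E n => z i)).continuousOn
  have hord : (( fun z : E n => z i) '' C).OrdConnected := hIm.ordConnected
  have hbtw : ∀ u ∈ C, ∀ v ∈ C, u i < v i → False := by
    intro u hu v hv huv
    obtain ⟨t, htT, ht1, ht2⟩ := (hT2 i).exists_between huv
    obtain ⟨z, hz, hzt⟩ := hord.out (mem_image_of_mem _ hu) (mem_image_of_mem _ hv)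
      ⟨ht1.le, ht2.le⟩
    exact hy i t htT ⟨z, ⟨hCQ hz, hzt⟩, hCy z hz⟩
  rcases lt_or_gt_of_ne hne with h3 | h3
  · exact hbtw x hx x' hx' h3
  · exact hbtw x' hx' x hx h3

end Run7.h575.OH
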