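import Pool.Agent.Run7.h575.OH.A2
import Pool.Agent.R775.HS.Glob

/-!
# The average over the closure of the powers of an element; local triviality

Adaptation of the starting files `Pool/Agent/R775/HS/Good.lean`, `Glob.lean` (`start'`, `locTriv'`)
to one-sided conditions and to families of charts stable under similarities only.
-/

set_option autoImplicit false

open MeasureTheory Set Metric Filter Topology
open scoped ENNReal NNReal

namespace Run7.h575.OH

open Pool.Agent.Y485.HS Pool.Agent.Y489.SP Pool.Agent.Y475.HS Pool.Agent.R775.HS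

/-- the average of the action in a chart, read in coordinates `τ` in which the maps satisfy
one-sided conditions, is a good map -/
theorem exists_good {n : ℕ} {X : Type} [TopologicalSpace X] [T2Space X] {H : Type} [Group H]
    [TopologicalSpace H] [IsTopologicalGroup H] [T2Space H] [MulAction H X] [ContinuousSMul H X]
    {φ : OpenPartialHomeomorph X (E n)} {g : H}
    (hcomp : IsCompact ((Subgroup.zpowers g).topologicalClosure : Set H))
    (hs : Small φ ((Subgroup.zpowers g).topologicalClosure : Set H)) {τ σ : E n → E n}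
    (hτ : ContinuousOn τ (closedBall 0 3)) (hσc : ContinuousOn σ (τ '' closedBall 0 3))
    (hσ : ∀ v ∈ closedBall (0 : E n) 3, σ (τ v) = v) {r l : ℕ → ℝ} (hr : ∀ j, 0 < r j)
    (hr1 : ∀ j, r j ≤ 1) (hl : ∀ j, 0 ≤ l j)
    (hrl : Tendsto (fun j => r j * (1 + l j) ^ n) atTop (𝓝 0))
    (hE : ∀ q ∈ (Subgroup.zpowers g).topologicalClosure, ∀ j,
      OS (τ '' closedBall 0 3) (r j) (l j) (fun u => φ (q • φ.symm (σ u)))) :
    ∃ F : E n → E n, GoodMap φ g F := by
  set K : Subgroup H := (Subgroup.zpowers g).topologicalClosure with hKdef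
  have hT := locAct_of_small K hs
  set T : K → E n → E n := fun h v => φ ((h : H) • φ.symm v) with hTdef
  have hgmem : g ∈ K := Subgroup.le_topologicalClosure _ (Subgroup.mem_zpowers g)
  have hKcomp : CompactSpace K := isCompact_iff_compactSpace.1 hcomp
  let _ : MeasurableSpace K := borel K
  have _ : BorelSpace K := ⟨rfl⟩
  let μ : Measure K := Measure.haarMeasure ⊤
  have hμ1 : IsProbabilityMeasure μ := ⟨by
    have := Measure.haarMeasure_self (K₀ := (⊤ : TopologicalSpace.PositiveCompacts K))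
    simpa using this⟩
  let S : K → E n → E n := fun k x => T k⁻¹ x
  have hScont : ContinuousOn (fun q : K × E n => S q.1 q.2) (univ ×ˢ BB n) := by
    have hc : Continuous (fun q : K × E n => (q.1⁻¹, q.2)) := by fun_prop
    refine hT.cont.comp hc.continuousOn ?_
    rintro ⟨k, x⟩ ⟨-, hx⟩
    exact ⟨mem_univ _, hx⟩
  let Φ : C(K, C(BB n, E n)) := res S hScont
  have hint : Integrable (fun ω => Φ ω) μ :=
    Φ.continuous.integrable_of_hasCompactSupport (HasCompactSupport.of_compactSpace _)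
  have heval : ∀ x : BB n, ∫ ω, S ω x.1 ∂μ = (∫ ω, Φ ω ∂μ : C(BB n, E n)) x := by
    intro x
    have := (ContinuousMap.evalCLM ℝ x : C(BB n, E n) →L[ℝ] E n).integral_comp_comm hint
    exact this
  set F : E n → E n := fun x => ∫ k, S k x ∂μ with hF
  have hFc : ContinuousOn F (BB n) := by
    rw [continuousOn_iff_continuous_domRestrict]
    have : (BB n).domRestrict (fun x => ∫ ω, S ω x ∂μ) = (∫ ω, Φ ω ∂μ : C(BB n, E n)) := by
      ext1 x
      exact heval x
    rw [this]
    exact (∫ ω, Φ ω ∂μ : C(BB n, E n)).continuous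
  have hSc1 : ∀ x ∈ BB n, Continuous (fun k => S k x) := by
    intro x hx
    have hc : Continuous (fun k : K => (k, x)) := by fun_prop
    exact hScont.comp_continuous hc (fun k => ⟨mem_univ _, hx⟩)
  have hSint : ∀ x ∈ BB n, Integrable (fun k => S k x) μ := fun x hx =>
    (hSc1 x hx).integrable_of_hasCompactSupport (HasCompactSupport.of_compactSpace _)
  have hdisp : ∀ x ∈ BB n, dist (F x) x ≤ 1 / 4 := by
    intro x hx
    have h1 : F x - x = ∫ k, (S k x - x) ∂μ := by
      rw [integral_sub (hSint x hx) (integrable_const _)]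
      simp [hF]
    rw [dist_eq_norm, h1]
    have h2 := norm_integral_le_of_norm_le_const (μ := μ) (f := fun k => S k x - x) (C := 1 / 4)
      (Eventually.of_forall fun k => by
        have := hT.disp k⁻¹ x hx
        rwa [dist_eq_norm] at this)
    simpa using h2
  have hinv : ∀ k : K, ∀ x ∈ BB n, T k x ∈ BB n → F (T k x) = F x := by
    intro k x hx hkx
    have h1 : ∀ k' : K, S k' (T k x) = S (k⁻¹ * k') x := by
      intro k'
      show T k'⁻¹ (T k x) = T (k⁻¹ * k')⁻¹ x
      rw [← hT.mul _ _ x hx hkx]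
      congr 1
      simp
    show ∫ k', S k' (T k x) ∂μ = ∫ k', S k' x ∂μ
    simp_rw [h1]
    exact integral_mul_left_eq_self (fun k' => S k' x) k⁻¹
  have hCB : closedBall (0 : E n) 3 ⊆ BB n := closedBall_subset_closedBall (by norm_num)
  have hs2 := hs.2
  have hs1 := hs.1
  refine ⟨F, hFc, hdisp, ?_, ?_, ?_⟩
  · intro v hv
    have hvn : ‖v‖ ≤ 3 := by simpa using hv
    have h2 := norm_T_le hT ⟨g, hgmem⟩ (hCB hv)
    exact hinv ⟨g, hgmem⟩ v (hCB hv) (mem_BB.2 (by linarith))
  · intro v hv hgv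
    have hall : ∀ k ∈ K, k • φ.symm v = φ.symm v := by
      have h1 : K ≤ MulAction.stabilizer H (φ.symm v) := by
        refine Subgroup.topologicalClosure_minimal _ ?_ ?_
        · rw [Subgroup.zpowers_le]
          exact hgv
        · have h2 : IsClosed {h : H | h • φ.symm v = φ.symm v} := by
            have hc : Continuous (fun h : H => h • φ.symm v) := by fun_prop
            exact isClosed_eq hc continuous_const
          exact h2
      exact fun k hk => h1 hk
    have h1 : ∀ k : K, S k v = v := by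
      intro k
      show φ (((k⁻¹ : K) : H) • φ.symm v) = v
      rw [hall _ (k⁻¹).2, φ.right_inv (hs1 (hCB hv))]
    show ∫ k, S k v ∂μ = v
    simp_rw [h1]
    simp
  · -- the fibres
    have hQ : IsCompact (τ '' closedBall 0 3) := (isCompact_closedBall 0 3).image_of_continuousOn hτ
    have hσm : ∀ u ∈ τ '' closedBall 0 3, σ u ∈ BB n := by
      rintro _ ⟨v, hv, rfl⟩
      rw [hσ v hv]
      exact hCB hv
    have hfc : ContinuousOn (fun u => F (σ u)) (τ '' closedBall 0 3) := hFc.comp hσc hσm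
    have hen : ∀ j, OS (τ '' closedBall 0 3) (r j) (l j) (fun u => F (σ u)) := by
      intro j
      exact os_avg μ (fun k u => S k (σ u)) (fun u hu => hSc1 _ (hσm u hu))
        (fun k => hE _ (k⁻¹).2 j)
    have hae := OH.ae_fibre hQ hfc hr hr1 hl hrl hen
    intro y hy ε hε
    have hopen : (ball (0 : E n) 1 ∩ ball y ε) ∈ 𝓝 y :=
      inter_mem (isOpen_ball.mem_nhds hy) (ball_mem_nhds y hε)
    have hd := Measure.dense_of_ae hae
    obtain ⟨y', ⟨hy1, hy2⟩, hy3⟩ := (mem_closure_iff_nhds.1 (hd y)) _ hopen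
    refine ⟨y', hy1, hy2, ?_⟩
    intro C hCc hCn hC3 hCy hCg
    have hpre : IsPreconnected (τ '' C) := hCn.isPreconnected.image _ (hτ.mono hC3)
    have hsub := hy3 (τ '' C) (image_mono hC3) hpre (by
      rintro _ ⟨v, hv, rfl⟩
      rw [hσ v (hC3 hv)]
      exact hCy v hv)
    obtain ⟨v, hv⟩ := hCn.nonempty
    refine ⟨v, hv, ?_⟩
    have hgv : φ (g • φ.symm v) ∈ C := by
      rw [← hCg]
      exact ⟨v, hv, rfl⟩
    have h1 : τ (φ (g • φ.symm v)) = τ v := hsub (mem_image_of_mem _ hgv) (mem_image_of_mem _ hv)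
    have h2 : φ (g • φ.symm v) = v := by
      rw [← hσ _ (hC3 hgv), h1, hσ _ (hC3 hv)]
    have h3 := (hs2 g hgmem v (hCB (hC3 hv))).1
    rw [← φ.left_inv h3, h2]

/-- the family of charts is closed under composition with similarities `v ↦ c (v - a)` -/
def SimStable (n : ℕ) {X : Type} [TopologicalSpace X] (A : Set (OpenPartialHomeomorph X (E n))) :
    Prop :=
  ∀ φ ∈ A, ∀ e : OpenPartialHomeomorph (E n) (E n),
    (∃ (c : ℝ) (a : E n), 0 < c ∧ ∀ v, e v = c • (v - a)) → φ.trans e ∈ A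

section
variable {n : ℕ} {X : Type} [TopologicalSpace X] {A : Set (OpenPartialHomeomorph X (E n))}

theorem start (hA : SimStable n A) {H : Type} [Group H] [TopologicalSpace H]
    [IsTopologicalGroup H] [CompactSpace H] [T2Space H] [TotallyDisconnectedSpace H]
    [MulAction H X] [ContinuousSMul H X] {x0 : X} (hx0 : x0 ∈ RegA A) :
    ∃ φ ∈ A, x0 ∈ φ.source ∧ φ x0 = 0 ∧ ∃ H0 : Subgroup H, IsOpen (H0 : Set H) ∧
      Small φ (H0 : Set H) := by
  obtain ⟨φ0, hφ0, hx0⟩ := hx0
  obtain ⟨r, hr, hball⟩ := Metric.isOpen_iff.1 φ0.open_target (φ0 x0) (φ0.map_source hx0)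
  set c : ℝ := 5 / r with hc
  have hc0 : 0 < c := by positivity
  obtain ⟨e, he1, he2, he3, he4⟩ := exists_sim (n := n) (φ0 x0) hc0
  have hφ : φ0.trans e ∈ A := hA φ0 hφ0 e ⟨c, φ0 x0, hc0, he3⟩
  have hsrc : x0 ∈ (φ0.trans e).source := by
    rw [OpenPartialHomeomorph.trans_source, he1]
    exact ⟨hx0, mem_univ _⟩
  have htgt : closedBall 0 4 ⊆ (φ0.trans e).target := by
    intro z hz
    rw [OpenPartialHomeomorph.trans_target, he2]
    refine ⟨mem_univ _, hball ?_⟩
    rw [he4, mem_ball, dist_eq_norm, add_sub_cancel_right, norm_smul, Real.norm_of_nonneg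
      (inv_nonneg.2 hc0.le)]
    rw [mem_closedBall, dist_zero_right] at hz
    have h2 : c⁻¹ * ‖z‖ ≤ c⁻¹ * 4 := by gcongr
    have h3 : c⁻¹ * 4 < r := by
      rw [hc, inv_div]
      linarith
    linarith
  obtain ⟨φ, hφdef⟩ : ∃ φ, φ = φ0.trans e := ⟨_, rfl⟩
  rw [← hφdef] at hφ hsrc htgt
  have h0 : φ x0 = 0 := by
    rw [hφdef, OpenPartialHomeomorph.coe_trans, Function.comp_apply, he3, sub_self, smul_zero]
  have key : ∀ᶠ h : H in 𝓝 1, ∀ v ∈ closedBall (0 : E n) 4,
      h • φ.symm v ∈ φ.source ∧ dist (φ (h • φ.symm v)) v ≤ 1 / 4 := by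
    apply (isCompact_closedBall (0 : E n) 4).eventually_forall_of_forall_eventually
    intro v hv
    have hvt := htgt hv
    have h1 : ContinuousAt (fun z : H × E n => z.1 • φ.symm z.2) (1, v) := by
      refine ContinuousAt.smul continuousAt_fst ?_
      exact ContinuousAt.comp (f := fun z : H × E n => z.2) (x := ((1 : H), v))
        (φ.continuousAt_symm hvt) continuousAt_snd
    have hs1 : (1 : H) • φ.symm v ∈ φ.source := by rw [one_smul]; exact φ.map_target hvt
    have h2 : ContinuousAt φ ((1 : H) • φ.symm v) := φ.continuousAt hs1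
    have h3 : ContinuousAt (fun z : H × E n => φ (z.1 • φ.symm z.2)) (1, v) :=
      ContinuousAt.comp (f := fun z : H × E n => z.1 • φ.symm z.2) (x := ((1 : H), v)) h2 h1
    have h5 : Tendsto (fun z : H × E n => dist (φ (z.1 • φ.symm z.2)) z.2) (𝓝 (1, v)) (𝓝 0) := by
      have h6 : Tendsto (fun z : H × E n => dist (φ (z.1 • φ.symm z.2)) z.2) (𝓝 (1, v))
        (𝓝 (dist (φ ((1 : H) • φ.symm v)) v)) := h3.dist continuousAt_snd
      have h7 : dist (φ ((1 : H) • φ.symm v)) v = 0 := by
        rw [one_smul, φ.right_inv hvt, dist_self]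
      rwa [h7] at h6
    have h8 : ∀ᶠ z : H × E n in 𝓝 (1, v), z.1 • φ.symm z.2 ∈ φ.source :=
      h1.eventually_mem (φ.open_source.mem_nhds hs1)
    filter_upwards [h8, h5.eventually (gt_mem_nhds (by norm_num : (0 : ℝ) < 1 / 4))] with z hz1 hz2
    exact ⟨hz1, hz2.le⟩
  obtain ⟨V, hV, hVo, hV1⟩ := eventually_nhds_iff.1 key
  obtain ⟨N, hN⟩ := ProfiniteGrp.exist_openNormalSubgroup_sub_open_nhds_of_one hVo hV1
  exact ⟨φ, hφ, hsrc, h0, N.toSubgroup, N.isOpen, htgt, fun h hh v hv => hV h (hN hh) v hv⟩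

theorem locTriv (hn : 1 ≤ n) [T2Space X] (hA : SimStable n A)
    {H : Type} [Group H] [TopologicalSpace H] [IsTopologicalGroup H] [CompactSpace H] [T2Space H]
    [TotallyDisconnectedSpace H] [MulAction H X] [ContinuousSMul H X]
    (hcrit : ∀ h : H, Crit A h) {x0 : X} (hx0 : x0 ∈ RegA A) :
    ∃ K : Subgroup H, IsOpen (K : Set H) ∧ ∀ᶠ x in 𝓝 x0, ∀ k ∈ K, k • x = x := by
  obtain ⟨φ, hφ, hxφ, hφ0, K, hKo, hKs⟩ := start hA (H := H) hx0
  have hKc : IsClosed (K : Set H) := Subgroup.isClosed_of_isOpen K hKo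
  have : CompactSpace K := isCompact_iff_compactSpace.1 hKc.isCompact
  have hDc : IsClosed (trivSub K (φ.symm '' ball (0 : E n) 1) : Set K) :=
    isClosed_triv (Subtype.val : K → H) continuous_subtype_val _
  have hD : trivSub K (φ.symm '' ball (0 : E n) 1) = ⊤ := by
    refine Pool.Agent.Y215.HS.syl K _ hDc ?_
    intro p hp P hPc hPp k hk
    have : CompactSpace P := isCompact_iff_compactSpace.1 hPc.isCompact
    have h1 : Tendsto (fun j : ℕ => (⟨k, hk⟩ : P) ^ p ^ j) atTop (𝓝 1) :=
      Pool.Agent.Y340.SP.t_POW p hp P hPp ⟨k, hk⟩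
    have hc : Continuous (fun q : P => ((q : K) : H)) :=
      continuous_subtype_val.comp continuous_subtype_val
    have h2 : Tendsto (fun j : ℕ => (k : H) ^ p ^ j) atTop (𝓝 1) := by
      have h3 := (hc.tendsto 1).comp h1
      simpa [Function.comp_def] using h3
    rintro _ ⟨v, hv, rfl⟩
    exact triv_ball hn hφ hKc hKs hp k.2 h2 (hcrit _) v hv
  refine ⟨K, hKo, ?_⟩
  have hopen : IsOpen (φ.source ∩ φ ⁻¹' ball 0 1) :=
    φ.isOpen_inter_preimage isOpen_ball
  have hmem : x0 ∈ φ.source ∩ φ ⁻¹' ball 0 1 := ⟨hxφ, by simp [hφ0]⟩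
  filter_upwards [hopen.mem_nhds hmem] with x hx k hk
  have h1 : (⟨k, hk⟩ : K) ∈ trivSub K (φ.symm '' ball (0 : E n) 1) := by
    rw [hD]; exact Subgroup.mem_top _
  exact h1 x ⟨φ x, hx.2, φ.left_inv hx.1⟩

end

end Run7.h575.OH
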