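import Pool.Agent.Run7.h575.OH.A3
import Pool.Agent.R775.HS.Some

/-!
# Locally effective actions by homeomorphisms which satisfy a one-sided condition somewhere

Adaptation of the starting file `Pool/Agent/R775/HS/Some.lean` to one-sided conditions.
-/

set_option autoImplicit false

open MeasureTheory Set Metric Filter Topology TopologicalSpace
open scoped ENNReal NNReal

namespace Run7.h575.OH

open Pool.Agent.Y485.HS Pool.Agent.Y489.SP
open Pool.Agent.W660.GY (NSS GY3)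
open Pool.Agent.R775.HS (RegA Small Crit SmallPow smallPow_of_hom)

section
variable {n : ℕ} {X : Type} [TopologicalSpace X]

/-- the set of the elements with one-sided conditions on `B` and with images of `B` in `B'` -/
def Dset {S : Type} [Group S] [MulAction S X] (ψ χ : OpenPartialHomeomorph X (E n))
    (r l : ℕ → ℝ) (B B' : Set (E n)) (m : ℕ) : Set S :=
  {s | (IsCompact (closure B') ∧ closure B' ⊆ χ.target ∧ B ⊆ ψ.target ∧ B.Nonempty ∧ IsOpen B) ∧
    (∀ v ∈ B, s • ψ.symm v ∈ χ.symm '' closure B') ∧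
    ∀ j, m ≤ j → OS B (r j) (l j) (fun v => χ (s • ψ.symm v))}

theorem isClosed_Dset [T2Space X] {S : Type} [Group S] [TopologicalSpace S] [MulAction S X]
    [ContinuousSMul S X] (ψ χ : OpenPartialHomeomorph X (E n)) (r l : ℕ → ℝ) (B B' : Set (E n))
    (m : ℕ) : IsClosed (Dset (S := S) ψ χ r l B B' m) := by
  by_cases hc : IsCompact (closure B') ∧ closure B' ⊆ χ.target ∧ B ⊆ ψ.target ∧ B.Nonempty ∧
      IsOpen B
  swap
  · have : Dset (S := S) ψ χ r l B B' m = ∅ := by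
      ext s
      simp only [Dset, mem_ofPred_eq, mem_empty_iff_false, iff_false, not_and]
      intro h
      exact (hc h).elim
    rw [this]
    exact isClosed_empty
  obtain ⟨hc1, hc2, hc3, hc4⟩ := id hc
  set D1 : Set S := {s | ∀ v ∈ B, s • ψ.symm v ∈ χ.symm '' closure B'} with hD1
  have hcl : IsClosed (χ.symm '' closure B') :=
    (hc1.image_of_continuousOn (χ.continuousOn_symm.mono hc2)).isClosed
  have hsrc : χ.symm '' closure B' ⊆ χ.source := by
    rintro _ ⟨v, hv, rfl⟩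
    exact χ.map_target (hc2 hv)
  have hD1c : IsClosed D1 := by
    have h1 : D1 = ⋂ v ∈ B, {s : S | s • ψ.symm v ∈ χ.symm '' closure B'} := by
      ext s
      simp [D1]
    rw [h1]
    refine isClosed_biInter fun v _ => ?_
    have hcont : Continuous (fun s : S => s • ψ.symm v) := by fun_prop
    exact hcl.preimage hcont
  have hcont : ∀ v ∈ B, ContinuousOn (fun s : S => χ (s • ψ.symm v)) D1 := by
    intro v hv
    have h1 : Continuous (fun s : S => s • ψ.symm v) := by fun_prop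
    exact χ.continuousOn.comp h1.continuousOn fun s hs => hsrc (hs v hv)
  have heq : Dset (S := S) ψ χ r l B B' m = D1 ∩ ⋂ (j : ℕ) (_ : m ≤ j) (v : E n) (_ : v ∈ B)
      (w : E n) (_ : w ∈ B) (_ : r j ≤ dist v w),
      (D1 ∩ (fun s : S => (inner ℝ (χ (s • ψ.symm v) - χ (s • ψ.symm w)) (v - w) : ℝ)) ⁻¹'
        Ici (-(l j * dist v w ^ 2))) := by
    ext s
    simp only [Dset, mem_ofPred_eq, mem_inter_iff, mem_iInter, mem_preimage, mem_Ici, OS, hD1]
    constructor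
    · rintro ⟨-, h1, h2⟩
      exact ⟨h1, fun j hj v hv w hw hvw => ⟨h1, h2 j hj v hv w hw hvw⟩⟩
    · rintro ⟨h1, h2⟩
      exact ⟨hc, h1, fun j hj v hv w hw hvw => (h2 j hj v hv w hw hvw).2⟩
  rw [heq]
  refine hD1c.inter ?_
  refine isClosed_iInter fun j => isClosed_iInter fun _ => isClosed_iInter fun v =>
    isClosed_iInter fun hv => isClosed_iInter fun w => isClosed_iInter fun hw =>
    isClosed_iInter fun _ => ?_
  refine ContinuousOn.preimage_isClosed_of_isClosed ?_ hD1c isClosed_Ici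
  exact ((hcont v hv).sub (hcont w hw)).inner continuousOn_const

theorem exists_Dset {S : Type} [Group S] [TopologicalSpace S] [MulAction S X]
    [ContinuousSMul S X] (ψ χ : OpenPartialHomeomorph X (E n)) {r l : ℕ → ℝ} {s : S} {W : Set X}
    (hWo : IsOpen W) (hWn : W.Nonempty) (hWs : W ⊆ ψ.source) (hsW : ∀ x ∈ W, s • x ∈ χ.source)
    {m : ℕ} (hE : ∀ j, m ≤ j → OS (ψ '' W) (r j) (l j) (fun v => χ (s • ψ.symm v))) :
    ∃ B ∈ countableBasis (E n), ∃ B' ∈ countableBasis (E n), s ∈ Dset ψ χ r l B B' m := by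
  obtain ⟨x0, hx0⟩ := hWn
  have hw : χ (s • x0) ∈ χ.target := χ.map_source (hsW x0 hx0)
  obtain ⟨ρ, hρ, hball⟩ := (nhds_basis_closedBall.mem_iff).1 (χ.open_target.mem_nhds hw)
  obtain ⟨B', hB', hwB', hB's⟩ := (isBasis_countableBasis (E n)).mem_nhds_iff.1
    (ball_mem_nhds (χ (s • x0)) hρ)
  have hclB' : closure B' ⊆ closedBall (χ (s • x0)) ρ :=
    closure_minimal (hB's.trans ball_subset_closedBall) isClosed_closedBall
  have hcomp : IsCompact (closure B') :=
    (isCompact_closedBall _ _).of_isClosed_subset isClosed_closure hclB'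
  have hBo' : IsOpen B' := (isBasis_countableBasis (E n)).isOpen hB'
  have hx0s := hWs hx0
  have hv0 : ψ x0 ∈ ψ.target := ψ.map_source hx0s
  have hct : ContinuousAt ψ.symm (ψ x0) := ψ.continuousAt_symm hv0
  have hleft : ψ.symm (ψ x0) = x0 := ψ.left_inv hx0s
  have h1 : ∀ᶠ v in 𝓝 (ψ x0), v ∈ ψ.target ∧ ψ.symm v ∈ W ∧ χ (s • ψ.symm v) ∈ B' := by
    have e1 : ∀ᶠ v in 𝓝 (ψ x0), v ∈ ψ.target := ψ.open_target.mem_nhds hv0
    have e2 : ∀ᶠ v in 𝓝 (ψ x0), ψ.symm v ∈ W :=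
      hct.eventually_mem (by rw [hleft]; exact hWo.mem_nhds hx0)
    have e3 : ContinuousAt (fun v => χ (s • ψ.symm v)) (ψ x0) := by
      have f1 : ContinuousAt (fun v => s • ψ.symm v) (ψ x0) := hct.const_smul s
      refine ContinuousAt.comp (g := χ) (f := fun v => s • ψ.symm v) ?_ f1
      simp only [hleft]
      exact χ.continuousAt (hsW x0 hx0)
    have e4 : ∀ᶠ v in 𝓝 (ψ x0), χ (s • ψ.symm v) ∈ B' :=
      e3.eventually_mem (by simp only [hleft]; exact hBo'.mem_nhds hwB')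
    exact e1.and (e2.and e4)
  obtain ⟨B, hB, hvB, hBs⟩ := (isBasis_countableBasis (E n)).mem_nhds_iff.1 h1
  refine ⟨B, hB, B', hB', ⟨hcomp, hclB'.trans hball, fun v hv => (hBs hv).1, ⟨_, hvB⟩,
    (isBasis_countableBasis (E n)).isOpen hB⟩, ?_, ?_⟩
  · intro v hv
    obtain ⟨f1, f2, f3⟩ := hBs hv
    exact ⟨_, subset_closure f3, χ.left_inv (hsW _ f2)⟩
  · intro j hj
    refine os_mono (fun v hv => ?_) le_rfl (hE j hj)
    obtain ⟨f1, f2, f3⟩ := hBs hv
    exact ⟨_, f2, ψ.right_inv f1⟩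

/-- the theorem for one compact group -/
theorem some_compact (hn : 1 ≤ n) [T2Space X] (Ψ : ℕ → OpenPartialHomeomorph X (E n))
    {S : Type} [Group S] [TopologicalSpace S] [IsTopologicalGroup S] [CompactSpace S] [T2Space S]
    [TotallyDisconnectedSpace S] [MulAction S X] [ContinuousSMul S X] {ι : Type} [Countable ι]
    {r' l' : ι → ℕ → ℝ} (hr' : ∀ k j, 0 < r' k j) (hr1' : ∀ k j, r' k j ≤ 1)
    (hl' : ∀ k j, 0 ≤ l' k j)
    (hrl' : ∀ k, Tendsto (fun j => r' k j * (1 + l' k j) ^ n) atTop (𝓝 0))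
    (hreg : ∀ s : S, ∃ (i i' : ℕ) (k : ι) (W : Set X), IsOpen W ∧ W.Nonempty ∧ W ⊆ (Ψ i).source ∧
      (∀ x ∈ W, s • x ∈ (Ψ i').source) ∧
      ∃ m : ℕ, ∀ j, m ≤ j → OS (Ψ i '' W) (r' k j) (l' k j)
        (fun v => Ψ i' (s • (Ψ i).symm v))) :
    ∃ K : Subgroup S, IsOpen (K : Set S) ∧ ∃ (i : ℕ) (W : Set X), IsOpen W ∧ W.Nonempty ∧
      W ⊆ (Ψ i).source ∧ ∀ k ∈ K, ∀ x ∈ W, k • x = x := by
  -- Baire
  have hcount : (countableBasis (E n)).Countable := countable_countableBasis (E n)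
  have : Countable (countableBasis (E n)) := hcount.to_subtype
  let f : (countableBasis (E n)) × (countableBasis (E n)) × ℕ × ℕ × ι × ℕ → Set S := fun q =>
    Dset (Ψ q.2.2.1) (Ψ q.2.2.2.1) (r' q.2.2.2.2.1) (l' q.2.2.2.2.1) q.1 q.2.1 q.2.2.2.2.2
  have hU : ⋃ q, f q = univ := by
    ext s
    simp only [mem_iUnion, mem_univ, iff_true]
    obtain ⟨i, i', k, W, hWo, hWn, hWs, hsW, m, hE⟩ := hreg s
    obtain ⟨B, hB, B', hB', h⟩ := exists_Dset (Ψ i) (Ψ i') hWo hWn hWs hsW hE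
    exact ⟨(⟨B, hB⟩, ⟨B', hB'⟩, i, i', k, m), h⟩
  obtain ⟨⟨⟨B, hB⟩, ⟨B', hB'⟩, i0, i1, k0, m⟩, s0, hs0⟩ :=
    nonempty_interior_of_iUnion_of_closed (f := f)
      (fun q => isClosed_Dset _ _ _ _ _ _ _) hU
  obtain ⟨ψ, hψ⟩ : ∃ ψ, ψ = Ψ i0 := ⟨_, rfl⟩
  obtain ⟨χ, hχ⟩ : ∃ χ, χ = Ψ i1 := ⟨_, rfl⟩
  obtain ⟨r, hrr⟩ : ∃ r, r = r' k0 := ⟨_, rfl⟩
  obtain ⟨l, hll⟩ : ∃ l, l = l' k0 := ⟨_, rfl⟩
  have hr : ∀ j, 0 < r j := by rw [hrr]; exact hr' k0
  have hr1 : ∀ j, r j ≤ 1 := by rw [hrr]; exact hr1' k0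
  have hl : ∀ j, 0 ≤ l j := by rw [hll]; exact hl' k0
  have hrl : Tendsto (fun j => r j * (1 + l j) ^ n) atTop (𝓝 0) := by
    rw [hrr, hll]; exact hrl' k0
  have hopen : IsOpen ((fun k : S => s0 * k) ⁻¹'
      (interior (f (⟨B, hB⟩, ⟨B', hB'⟩, i0, i1, k0, m)))) :=
    isOpen_interior.preimage (continuous_const.mul continuous_id)
  obtain ⟨N, hN⟩ := ProfiniteGrp.exist_openNormalSubgroup_sub_open_nhds_of_one hopen (by
    rw [mem_preimage, mul_one]; exact hs0)
  have hD : ∀ k ∈ N.toSubgroup, s0 * k ∈ Dset ψ χ r l B B' m := fun k hk => by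
    rw [hψ, hχ, hrr, hll]
    exact interior_subset (hN hk)
  set K : Subgroup S := N.toSubgroup with hK
  have hKo : IsOpen (K : Set S) := N.isOpen'
  have hKc : IsClosed (K : Set S) := Subgroup.isClosed_of_isOpen K hKo
  have : CompactSpace K := isCompact_iff_compactSpace.1 hKc.isCompact
  obtain ⟨⟨hc1, hc2, hc3, hc4, hc5⟩, hc6, hc7⟩ := hD 1 K.one_mem
  have hsrc : χ.symm '' closure B' ⊆ χ.source := by
    rintro _ ⟨v, hv, rfl⟩
    exact χ.map_target (hc2 hv)
  rw [mul_one] at hc6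
  -- the charts
  let A : Set (OpenPartialHomeomorph X (E n)) := {φ | φ.source ⊆ ψ.source ∩ ψ ⁻¹' B ∧
    ∃ (c : ℝ) (a : E n), 0 < c ∧ ∀ x ∈ φ.source, φ x = c • (χ (s0 • x) - a)}
  have hA : SimStable n A := by
    rintro φ ⟨h1, c, a, hc, hca⟩ e ⟨c', a', hc', he⟩
    have hsub : (φ.trans e).source ⊆ φ.source := by
      rw [OpenPartialHomeomorph.trans_source]
      exact inter_subset_left
    refine ⟨hsub.trans h1, c' * c, a + c⁻¹ • a', by positivity, fun x hx => ?_⟩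
    rw [OpenPartialHomeomorph.coe_trans, Function.comp_apply, he, hca x (hsub hx), mul_smul]
    congr 1
    rw [smul_sub, smul_sub, smul_add, smul_smul, mul_inv_cancel₀ hc.ne', one_smul, sub_sub]
  obtain ⟨v1, hv1⟩ := hc4
  have hO : IsOpen (ψ.source ∩ ψ ⁻¹' B) := ψ.isOpen_inter_preimage hc5
  have hx1 : ψ.symm v1 ∈ RegA A := by
    refine ⟨((Homeomorph.smul s0).toOpenPartialHomeomorph.trans χ).restrOpen _ hO, ⟨?_, 1, 0,
      one_pos, ?_⟩, ?_⟩
    · rw [OpenPartialHomeomorph.restrOpen_source]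
      exact inter_subset_right
    · intro x _
      rw [one_smul, sub_zero]
      rfl
    · rw [OpenPartialHomeomorph.restrOpen_source, OpenPartialHomeomorph.trans_source]
      refine ⟨⟨mem_univ _, ?_⟩, ψ.map_target (hc3 hv1), ?_⟩
      · show s0 • ψ.symm v1 ∈ χ.source
        exact hsrc (hc6 v1 hv1)
      · show ψ (ψ.symm v1) ∈ B
        rw [ψ.right_inv (hc3 hv1)]
        exact hv1
  have hcrit : ∀ k : K, Crit A k := by
    intro k p hp hgp hcomp φ hφ hsm
    obtain ⟨hφs, c, a, hc0, hca⟩ := hφ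
    have h34 : closedBall (0 : E n) 3 ⊆ closedBall 0 4 :=
      closedBall_subset_closedBall (by norm_num)
    have ht3 : closedBall (0 : E n) 3 ⊆ φ.target := h34.trans hsm.1
    have hτs : ∀ v ∈ closedBall (0 : E n) 3, φ.symm v ∈ φ.source := fun v hv =>
      φ.map_target (ht3 hv)
    have hτψ : ∀ v ∈ closedBall (0 : E n) 3, ψ.symm (ψ (φ.symm v)) = φ.symm v := fun v hv =>
      ψ.left_inv (hφs (hτs v hv)).1
    refine exists_good (τ := fun v => ψ (φ.symm v)) (σ := fun u => φ (ψ.symm u)) hcomp hsm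
      ?_ ?_ ?_ (r := fun j => r (j + m)) (l := fun j => c * l (j + m)) (fun j => hr _)
      (fun j => hr1 _) (fun j => mul_nonneg hc0.le (hl _)) ?_ ?_
    · refine ψ.continuousOn.comp (φ.continuousOn_symm.mono ht3) fun v hv => ?_
      exact (hφs (hτs v hv)).1
    · refine φ.continuousOn.comp (ψ.continuousOn_symm.mono ?_) ?_
      · rintro _ ⟨v, hv, rfl⟩
        exact ψ.map_source (hφs (hτs v hv)).1
      · rintro _ ⟨v, hv, rfl⟩
        show ψ.symm (ψ (φ.symm v)) ∈ φ.source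
        rw [hτψ v hv]
        exact hτs v hv
    · intro v hv
      show φ (ψ.symm (ψ (φ.symm v))) = v
      rw [hτψ v hv, φ.right_inv (ht3 hv)]
    · have h1 := (tendsto_add_atTop_iff_nat m).2 hrl
      have h2 := h1.const_mul ((max 1 c) ^ n)
      rw [mul_zero] at h2
      refine squeeze_zero (fun j => ?_) (fun j => ?_) h2
      · have g1 := hr (j + m)
        have g2 := hl (j + m)
        positivity
      · have g1 := hr (j + m)
        have g2 := hl (j + m)
        have g3 : 1 + c * l (j + m) ≤ max 1 c * (1 + l (j + m)) := by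
          have e1 : (1 : ℝ) ≤ max 1 c := le_max_left _ _
          have e2 : c ≤ max 1 c := le_max_right _ _
          nlinarith [mul_le_mul_of_nonneg_right e2 g2]
        calc r (j + m) * (1 + c * l (j + m)) ^ n
            ≤ r (j + m) * (max 1 c * (1 + l (j + m))) ^ n := by gcongr
          _ = max 1 c ^ n * (r (j + m) * (1 + l (j + m)) ^ n) := by rw [mul_pow]; ring
    · intro q hq j
      have hEq := (hD (q : S) q.2).2.2 (j + m) (by omega)
      have hval : ∀ u ∈ (fun v => ψ (φ.symm v)) '' closedBall (0 : E n) 3,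
          u ∈ B ∧ φ.symm (φ (ψ.symm u)) = ψ.symm u ∧ (q : S) • ψ.symm u ∈ φ.source := by
        rintro _ ⟨v, hv, rfl⟩
        have e1 := hτψ v hv
        refine ⟨(hφs (hτs v hv)).2, ?_, ?_⟩
        · show φ.symm (φ (ψ.symm (ψ (φ.symm v)))) = ψ.symm (ψ (φ.symm v))
          rw [e1, φ.left_inv (hτs v hv)]
        · show (q : S) • ψ.symm (ψ (φ.symm v)) ∈ φ.source
          rw [e1]
          exact (hsm.2 q hq v (h34 hv)).1
      intro v hv w hw hvw
      obtain ⟨a1, a2, a3⟩ := hval v hv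
      obtain ⟨b1, b2, b3⟩ := hval w hw
      have h3 := hEq v a1 w b1 hvw
      have h4 : (fun u => φ (q • φ.symm (φ (ψ.symm u)))) v -
          (fun u => φ (q • φ.symm (φ (ψ.symm u)))) w =
          c • (χ ((s0 * (q : S)) • ψ.symm v) - χ ((s0 * (q : S)) • ψ.symm w)) := by
        show φ ((q : S) • φ.symm (φ (ψ.symm v))) - φ ((q : S) • φ.symm (φ (ψ.symm w))) = _
        rw [a2, b2, hca _ a3, hca _ b3, mul_smul, mul_smul, ← smul_sub]
        congr 1
        abel
      rw [h4, inner_smul_left]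
      show -(c * l (j + m) * dist v w ^ 2) ≤ (starRingEnd ℝ) c * _
      rw [conj_trivial]
      have h5 := mul_le_mul_of_nonneg_left h3 hc0.le
      calc -(c * l (j + m) * dist v w ^ 2) = c * -(l (j + m) * dist v w ^ 2) := by ring
        _ ≤ _ := h5
  obtain ⟨K1, hK1o, hK1t⟩ := locTriv hn hA (H := K) hcrit hx1
  refine ⟨K1.map K.subtype, ?_, ?_⟩
  · rw [Subgroup.coe_map]
    exact hKo.isOpenMap_subtype_val _ hK1o
  · obtain ⟨W, hW, hWo, hxW⟩ := eventually_nhds_iff.1 hK1t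
    refine ⟨i0, W ∩ ψ.source, hWo.inter ψ.open_source, ⟨_, hxW, ψ.map_target (hc3 hv1)⟩,
      hψ ▸ inter_subset_right, ?_⟩
    rintro _ ⟨k, hk, rfl⟩ x hx
    exact hW x hx.1 k hk

/-- the theorem for locally compact groups -/
theorem lie_os (hn : 1 ≤ n) [T2Space X] (Ψ : ℕ → OpenPartialHomeomorph X (E n))
    {G : Type} [Group G] [TopologicalSpace G] [IsTopologicalGroup G] [LocallyCompactSpace G]
    [T2Space G] [MulAction G X] [ContinuousSMul G X] {V : Set G} (hV : V ∈ 𝓝 (1 : G))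
    (hLE : ∀ g, SmallPow V g → ∀ (i : ℕ) (W : Set X), IsOpen W → W.Nonempty → W ⊆ (Ψ i).source →
      (∀ x ∈ W, g • x = x) → g = 1)
    {ι : Type} [Countable ι] {r l : ι → ℕ → ℝ} (hr : ∀ k j, 0 < r k j) (hr1 : ∀ k j, r k j ≤ 1)
    (hl : ∀ k j, 0 ≤ l k j) (hrl : ∀ k, Tendsto (fun j => r k j * (1 + l k j) ^ n) atTop (𝓝 0))
    (hreg : ∀ g, SmallPow V g → ∃ (i i' : ℕ) (k : ι) (W : Set X), IsOpen W ∧ W.Nonempty ∧
      W ⊆ (Ψ i).source ∧ (∀ x ∈ W, g • x ∈ (Ψ i').source) ∧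
      ∃ m : ℕ, ∀ j, m ≤ j → OS (Ψ i '' W) (r k j) (l k j)
        (fun v => Ψ i' (g • (Ψ i).symm v))) :
    IsLie G := by
  have hN : NSS G := by
    refine nss_of_Z V hV ?_
    intro S _ _ _ _ _ _ i hi hinj hiV
    let _ : MulAction S X := MulAction.compHom X i
    have _ : ContinuousSMul S X := ⟨by
      have h : Continuous (fun q : S × X => i q.1 • q.2) := by fun_prop
      exact h⟩
    obtain ⟨K, hKo, i0, W, hWo, hWn, hWs, hKW⟩ := some_compact (S := S) hn Ψ hr hr1 hl hrl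
      (fun s => hreg (i s) (smallPow_of_hom i hi hiV s))
    have hbot : K = ⊥ := by
      rw [eq_bot_iff]
      intro k hk
      rw [Subgroup.mem_bot]
      apply hinj
      rw [map_one]
      exact hLE (i k) (smallPow_of_hom i hi hiV k) i0 W hWo hWn hWs fun x hx => hKW k hk x hx
    rw [hbot] at hKo
    refine discreteTopology_of_isOpen_singleton_one ?_
    convert hKo using 1
    ext x
    simp
  obtain ⟨E, i1, i2, i3, ⟨C⟩⟩ := Pool.Agent.Y328.HS.lga G hN
  let _ := i1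
  let _ := i2
  have _ := i3
  exact Pool.Agent.Y286.HS.lgb G E C

end

end Run7.h575.OH
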